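import Pool.Agent.Helper27.Mess.Defs

/-!
# MS-7: the coinvariants of a finitely generated projective module are free of finite rank
-/

set_option autoImplicit false

namespace Pool.Agent.Helper27.Mess

open Finset
open scoped IsMulCommutative

universe u v w

variable {Γ : Type u} [Group Γ] {C : Type v} [AddCommGroup C] [Module (MonoidAlgebra ℤ Γ) C]

namespace MS7

/-- The augmentation of the integral group ring. -/
noncomputable def aug (Γ : Type u) [Group Γ] : MonoidAlgebra ℤ Γ →+* ℤ :=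
  ((MonoidAlgebra.lift ℤ ℤ Γ (1 : Γ →* ℤ)) : MonoidAlgebra ℤ Γ →ₐ[ℤ] ℤ)

theorem aug_of (g : Γ) : aug Γ (MonoidAlgebra.of ℤ Γ g) = 1 := by
  simp [aug]

theorem aug_eq (s : MonoidAlgebra ℤ Γ) :
    aug Γ s = ∑ g ∈ s.coeff.support, s.coeff g := by
  simp [aug, MonoidAlgebra.lift_apply, Finsupp.sum]

/-- An invariant additive map turns multiplication by `s` into multiplication by the
augmentation of `s`. -/
theorem inv_smul {O : Type w} [CommRing O] {f : C →+ O} (hf : f ∈ Inv (⊤ : Subgroup Γ) C O)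
    (s : MonoidAlgebra ℤ Γ) (x : C) : f (s • x) = aug Γ s • f x := by
  rw [smul_eq_sum, map_sum, aug_eq, Finset.sum_smul]
  refine Finset.sum_congr rfl fun g _ => ?_
  rw [map_zsmul, hf g (Subgroup.mem_top g)]

end MS7

/-- MS-7: the coinvariants of `C` are free of finite rank. -/
theorem exists_basis [Module.Finite (MonoidAlgebra ℤ Γ) C]
    [Module.Projective (MonoidAlgebra ℤ Γ) C] :
    ∃ (R : ℕ) (c : Fin R → C) (A : C → Fin R → ℤ),
      (∀ (O : Type w) [CommRing O], ∀ f ∈ Inv (⊤ : Subgroup Γ) C O, ∀ x,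
        f x = ∑ i, ((A x i : ℤ) : O) * f (c i)) ∧
      (∀ (O : Type w) [CommRing O] (v : Fin R → O),
        ∃ f ∈ Inv (⊤ : Subgroup Γ) C O, ∀ i, f (c i) = v i) := by
  classical
  obtain ⟨k, p, hp⟩ := Module.Finite.exists_fin' (MonoidAlgebra ℤ Γ) C
  obtain ⟨s, hs⟩ := Module.projective_lifting_property p LinearMap.id hp
  have hs' : ∀ x, p (s x) = x := fun x => by
    have := LinearMap.congr_fun hs x
    simpa using this
  let φ : C →+ (Fin k → ℤ) :=
    { toFun := fun x i => MS7.aug Γ (s x i)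
      map_zero' := by funext i; simp
      map_add' := fun x y => by funext i; simp }
  have hφ : ∀ x i, φ x i = MS7.aug Γ (s x i) := fun _ _ => rfl
  have hφact : ∀ (g : Γ) x, φ (act g x) = φ x := by
    intro g x
    funext i
    rw [hφ, hφ, map_act, act_def, Pi.smul_apply, smul_eq_mul, map_mul, MS7.aug_of, one_mul]
  -- invariant maps vanish where `φ` vanishes
  have hvan : ∀ (O : Type w) [CommRing O], ∀ f ∈ Inv (⊤ : Subgroup Γ) C O, ∀ x,
      φ x = 0 → f x = 0 := by
    intro O _ f hf x hx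
    have h1 : x = ∑ i, (s x i) • p (Pi.single i 1) := by
      conv_lhs => rw [← hs' x]
      conv_lhs => rw [pi_eq_sum_univ (s x)]
      rw [map_sum]
      refine Finset.sum_congr rfl fun i _ => ?_
      rw [map_smul]
      congr 2
      funext j
      by_cases hij : i = j
      · subst hij; simp
      · simp [hij, Ne.symm hij]
    rw [h1, map_sum]
    refine Finset.sum_eq_zero fun i _ => ?_
    rw [MS7.inv_smul hf, ← hφ, hx]
    simp
  let Q : Submodule ℤ (Fin k → ℤ) := LinearMap.range φ.toIntLinearMap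
  let b := Module.finBasis ℤ Q
  have hb : ∀ i, ∃ c : C, φ c = (b i : Fin k → ℤ) := fun i => by
    obtain ⟨c, hc⟩ := (b i).2
    exact ⟨c, hc⟩
  choose c hc using hb
  let A : C → Fin (Module.finrank ℤ Q) → ℤ := fun x i => b.repr ⟨φ x, ⟨x, rfl⟩⟩ i
  have hA : ∀ x i, A x i = b.repr ⟨φ x, ⟨x, rfl⟩⟩ i := fun _ _ => rfl
  have hAc : ∀ i j, A (c i) j = if i = j then 1 else 0 := by
    intro i j
    rw [hA]
    have : (⟨φ (c i), ⟨c i, rfl⟩⟩ : Q) = b i := Subtype.ext (hc i)
    rw [this, Module.Basis.repr_self, Finsupp.single_apply]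
  refine ⟨_, c, A, ?_, ?_⟩
  · intro O _ f hf x
    have h1 : φ (x - ∑ i, A x i • c i) = 0 := by
      rw [map_sub, map_sum, sub_eq_zero]
      have h2 := congrArg (Subtype.val) (b.sum_repr ⟨φ x, ⟨x, rfl⟩⟩)
      simp only [Submodule.coe_sum, Submodule.coe_smul] at h2
      rw [← h2]
      refine Finset.sum_congr rfl fun i _ => ?_
      rw [map_zsmul, hc]
    have h3 := hvan O f hf _ h1
    rw [map_sub, map_sum, sub_eq_zero] at h3
    rw [h3]
    refine Finset.sum_congr rfl fun i _ => ?_
    rw [map_zsmul, zsmul_eq_mul]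
  · intro O _ v
    refine ⟨{ toFun := fun x => ∑ i, ((A x i : ℤ) : O) * v i
              map_zero' := ?_
              map_add' := ?_ }, ?_, ?_⟩
    · refine Finset.sum_eq_zero fun i _ => ?_
      have : A 0 i = 0 := by
        rw [hA]
        have h0 : (⟨φ 0, ⟨0, rfl⟩⟩ : Q) = 0 := Subtype.ext (map_zero φ)
        rw [h0, map_zero]; rfl
      rw [this]; simp
    · intro x y
      rw [← Finset.sum_add_distrib]
      refine Finset.sum_congr rfl fun i _ => ?_
      have : A (x + y) i = A x i + A y i := by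
        rw [hA, hA, hA]
        have h0 : (⟨φ (x + y), ⟨x + y, rfl⟩⟩ : Q) =
            ⟨φ x, ⟨x, rfl⟩⟩ + ⟨φ y, ⟨y, rfl⟩⟩ := Subtype.ext (map_add φ x y)
        rw [h0, map_add]; rfl
      rw [this]
      push_cast
      ring
    · rw [mem_Inv]
      intro g _ x
      have : A (act g x) = A x := by
        funext i
        rw [hA, hA]
        have h0 : (⟨φ (act g x), ⟨act g x, rfl⟩⟩ : Q) =
            ⟨φ x, ⟨x, rfl⟩⟩ := Subtype.ext (hφact g x)
        rw [h0]
      simp only [AddMonoidHom.coe_mk, ZeroHom.coe_mk, this]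
    · intro i
      simp only [AddMonoidHom.coe_mk, ZeroHom.coe_mk, hAc]
      simp

end Pool.Agent.Helper27.Mess
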